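import Pool.Agent.H606.GU.Stm

/-! TASK DER of project GU (helper606). -/

set_option autoImplicit false

open MeasureTheory Filter Topology Finset
open Pool.Agent.H606.GU
open scoped Pointwise

namespace Pool.Agent.H289.GU.DER

theorem smul_cube (k : ℕ) {v : ℝ} (hv : 0 < v) :
    v • Set.Icc (0 : Fin k → ℝ) (fun _ => 1) = Set.Icc (0 : Fin k → ℝ) (fun _ => v) := by
  ext u
  rw [Set.mem_smul_set_iff_inv_smul_mem₀ hv.ne']
  simp only [Set.mem_Icc, Pi.le_def, Pi.zero_apply, Pi.smul_apply, smul_eq_mul]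
  constructor
  · rintro ⟨h1, h2⟩
    refine ⟨fun i => ?_, fun i => ?_⟩
    · have := h1 i
      rwa [inv_mul_eq_div, le_div_iff₀ hv, zero_mul] at this
    · have := h2 i
      rwa [inv_mul_eq_div, div_le_one hv] at this
  · rintro ⟨h1, h2⟩
    refine ⟨fun i => ?_, fun i => ?_⟩
    · have := h1 i
      rw [inv_mul_eq_div]
      exact div_nonneg this hv.le
    · have := h2 i
      rw [inv_mul_eq_div, div_le_one hv]
      exact this

theorem cont_sn (k : ℕ) : Continuous (fun p : (Fin k → ℝ) × ℝ => sn p.1 p.2) := by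
  refine continuous_pi fun i => ?_
  refine Fin.lastCases ?_ (fun j => ?_) i
  · simp only [sn, Fin.snoc_last]
    exact continuous_snd
  · simp only [sn, Fin.snoc_castSucc]
    exact (continuous_apply j).comp continuous_fst

/-- the scaled inner integral -/
noncomputable def Q (k : ℕ) (g : (Fin (k + 1) → ℝ) → ℝ) (v : ℝ) : ℝ :=
  v ^ k * ∫ w in Set.Icc (0 : Fin k → ℝ) (fun _ => 1), g (sn (v • w) v)

theorem Q_cont (k : ℕ) (g : (Fin (k + 1) → ℝ) → ℝ) (hg : Continuous g) : Continuous (Q k g) := by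
  unfold Q
  refine (continuous_pow k).mul ?_
  refine continuous_parametric_integral_of_continuous
    (f := fun v w => g (sn (v • w) v)) ?_ isCompact_Icc
  have h : Continuous (fun a : ℝ × (Fin k → ℝ) => sn (a.1 • a.2) a.1) :=
    (cont_sn k).comp (f := fun a : ℝ × (Fin k → ℝ) => (a.1 • a.2, a.1))
      ((continuous_fst.smul continuous_snd).prodMk continuous_fst)
  exact hg.comp h

theorem scal (k : ℕ) (g : (Fin (k + 1) → ℝ) → ℝ) {v : ℝ} (hv : 0 < v) :
    ∫ u in Set.Icc (0 : Fin k → ℝ) (fun _ => v), g (sn u v) = Q k g v := by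
  unfold Q
  have h := MeasureTheory.Measure.setIntegral_comp_smul_of_pos (volume : Measure (Fin k → ℝ))
    (fun u => g (sn u v)) (Set.Icc (0 : Fin k → ℝ) (fun _ => 1)) hv
  rw [h, smul_cube k hv, Module.finrank_fin_fun, smul_eq_mul, ← mul_assoc,
    mul_inv_cancel₀ (pow_pos hv k).ne', one_mul]

/-- the part of the cube where the `i`-th coordinate is the largest -/
def A (k : ℕ) (s : ℝ) (i : Fin (k + 1)) : Set (Fin (k + 1) → ℝ) :=
  {u | u ∈ Set.Icc (0 : Fin (k + 1) → ℝ) (fun _ => s) ∧ ∀ j, u j ≤ u i}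

theorem A_closed (k : ℕ) (s : ℝ) (i : Fin (k + 1)) : IsClosed (A k s i) := by
  have h : A k s i = Set.Icc (0 : Fin (k + 1) → ℝ) (fun _ => s) ∩ ⋂ j, {u | u j ≤ u i} := by
    ext u
    simp [A]
  rw [h]
  refine isClosed_Icc.inter (isClosed_iInter fun j => ?_)
  exact isClosed_le (continuous_apply j) (continuous_apply i)

theorem A_compact (k : ℕ) (s : ℝ) (i : Fin (k + 1)) : IsCompact (A k s i) :=
  isCompact_Icc.of_isClosed_subset (A_closed k s i) fun _ hu => hu.1

theorem A_union (k : ℕ) (s : ℝ) :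
    ⋃ i, A k s i = Set.Icc (0 : Fin (k + 1) → ℝ) (fun _ => s) := by
  ext u
  simp only [Set.mem_iUnion]
  constructor
  · rintro ⟨i, hi⟩
    exact hi.1
  · intro hu
    obtain ⟨i, hi⟩ := Finite.exists_max u
    exact ⟨i, hu, hi⟩

theorem null_eq (k : ℕ) {i j : Fin (k + 1)} (hij : i ≠ j) :
    volume {u : Fin (k + 1) → ℝ | u i = u j} = 0 := by
  have h : {u : Fin (k + 1) → ℝ | u i = u j} =
      (LinearMap.ker ((LinearMap.proj i : (Fin (k + 1) → ℝ) →ₗ[ℝ] ℝ) -
        (LinearMap.proj j : (Fin (k + 1) → ℝ) →ₗ[ℝ] ℝ)) : Set (Fin (k + 1) → ℝ)) := by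
    ext u
    simp [sub_eq_zero]
  rw [h]
  refine MeasureTheory.Measure.addHaar_submodule _ _ ?_
  intro htop
  have h1 : (Pi.single i (1 : ℝ) : Fin (k + 1) → ℝ) ∈
      LinearMap.ker ((LinearMap.proj i : (Fin (k + 1) → ℝ) →ₗ[ℝ] ℝ) -
        (LinearMap.proj j : (Fin (k + 1) → ℝ) →ₗ[ℝ] ℝ)) := by
    rw [htop]
    trivial
  simp [Pi.single_apply, hij, hij.symm] at h1

theorem A_ae (k : ℕ) (s : ℝ) : Pairwise (Function.onFun (AEDisjoint volume) (A k s)) := by
  intro i j hij
  refine measure_mono_null ?_ (null_eq k hij)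
  intro u hu
  exact le_antisymm (hu.2.2 i) (hu.1.2 j)

theorem A_swap (k : ℕ) (g : (Fin (k + 1) → ℝ) → ℝ)
    (hs : ∀ (e : Equiv.Perm (Fin (k + 1))) (y : Fin (k + 1) → ℝ), g (fun i => y (e i)) = g y)
    (s : ℝ) (i : Fin (k + 1)) : ∫ u in A k s i, g u = ∫ u in A k s (Fin.last k), g u := by
  set e : Equiv.Perm (Fin (k + 1)) := Equiv.swap i (Fin.last k) with he
  have hmp := MeasureTheory.volume_measurePreserving_piCongrLeft (fun _ : Fin (k + 1) => ℝ) e
  have happ : ∀ (u : Fin (k + 1) → ℝ),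
      (MeasurableEquiv.piCongrLeft (fun _ : Fin (k + 1) => ℝ) e) u = fun j => u (e j) := by
    intro u
    funext j
    have h1 : j = e (e j) := by rw [he, Equiv.swap_apply_self]
    conv_lhs => rw [h1]
    exact Equiv.piCongrLeft_apply_apply (fun _ : Fin (k + 1) => ℝ) e u (e j)
  have h := hmp.setIntegral_preimage_emb
    (MeasurableEquiv.piCongrLeft (fun _ : Fin (k + 1) => ℝ) e).measurableEmbedding g
    (A k s (Fin.last k))
  rw [← h]
  have hpre : (MeasurableEquiv.piCongrLeft (fun _ : Fin (k + 1) => ℝ) e) ⁻¹'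
      (A k s (Fin.last k)) = A k s i := by
    ext u
    simp only [Set.mem_preimage, happ, A, Set.mem_ofPred_eq, Set.mem_Icc, Pi.le_def, Pi.zero_apply]
    have hl : e (Fin.last k) = i := by rw [he, Equiv.swap_apply_right]
    rw [hl]
    constructor
    · rintro ⟨⟨h1, h2⟩, h3⟩
      refine ⟨⟨fun j => ?_, fun j => ?_⟩, fun j => ?_⟩
      · have := h1 (e.symm j); rwa [e.apply_symm_apply] at this
      · have := h2 (e.symm j); rwa [e.apply_symm_apply] at this
      · have := h3 (e.symm j); rwa [e.apply_symm_apply] at this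
    · rintro ⟨⟨h1, h2⟩, h3⟩
      exact ⟨⟨fun j => h1 _, fun j => h2 _⟩, fun j => h3 _⟩
  rw [hpre]
  refine setIntegral_congr_fun (A_closed k s i).measurableSet fun u _ => ?_
  simp only [happ]
  exact (hs e u).symm

theorem A_last (k : ℕ) (g : (Fin (k + 1) → ℝ) → ℝ) (hg : Continuous g) {s : ℝ} (hs : 0 < s) :
    ∫ u in A k s (Fin.last k), g u = ∫ v in (0 : ℝ)..s, Q k g v := by
  have hmp := MeasureTheory.volume_preserving_piFinSuccAbove (fun _ : Fin (k + 1) => ℝ) (Fin.last k)
  have hmp' := hmp.symm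
  set E := MeasurableEquiv.piFinSuccAbove (fun _ : Fin (k + 1) => ℝ) (Fin.last k) with hE
  have happ : ∀ p : ℝ × (Fin k → ℝ), E.symm p = sn p.2 p.1 := by
    intro p
    funext j
    refine Fin.lastCases ?_ (fun i => ?_) j
    · simp [hE, sn, MeasurableEquiv.piFinSuccAbove, Fin.insertNthEquiv]
    · have := Fin.insertNth_apply_succAbove (α := fun _ : Fin (k + 1) => ℝ) (Fin.last k) p.1 p.2 i
      rw [Fin.succAbove_last] at this
      simpa [hE, sn, MeasurableEquiv.piFinSuccAbove, Fin.insertNthEquiv] using this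
  have h := hmp'.setIntegral_preimage_emb E.symm.measurableEmbedding g (A k s (Fin.last k))
  rw [← h]
  have hm : MeasurableSet (E.symm ⁻¹' A k s (Fin.last k)) :=
    E.symm.measurable (A_closed k s _).measurableSet
  rw [← integral_indicator hm]
  have hint : Integrable ((E.symm ⁻¹' A k s (Fin.last k)).indicator fun p => g (E.symm p))
      (volume.prod volume) := by
    rw [integrable_indicator_iff hm]
    have h1 : IntegrableOn g (A k s (Fin.last k)) :=
      hg.continuousOn.integrableOn_compact (A_compact k s _)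
    exact (hmp'.integrableOn_comp_preimage E.symm.measurableEmbedding).2 h1
  rw [show (volume : Measure (ℝ × (Fin k → ℝ))) = volume.prod volume from rfl, integral_prod _ hint]
  have hmem : ∀ (v : ℝ) (u : Fin k → ℝ), (v, u) ∈ E.symm ⁻¹' A k s (Fin.last k) ↔
      v ∈ Set.Icc 0 s ∧ u ∈ Set.Icc (0 : Fin k → ℝ) (fun _ => v) := by
    intro v u
    simp only [Set.mem_preimage, happ, A, Set.mem_ofPred_eq, Set.mem_Icc, Pi.le_def, Pi.zero_apply]
    constructor
    · rintro ⟨⟨h1, h2⟩, h3⟩
      have e1 := h1 (Fin.last k)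
      have e2 := h2 (Fin.last k)
      simp only [sn, Fin.snoc_last] at e1 e2 h3
      refine ⟨⟨e1, e2⟩, fun i => ?_, fun i => ?_⟩
      · have := h1 i.castSucc
        simpa [sn] using this
      · have := h3 i.castSucc
        simpa [sn] using this
    · rintro ⟨⟨h1, h2⟩, h3, h4⟩
      refine ⟨⟨fun j => ?_, fun j => ?_⟩, fun j => ?_⟩
      · refine Fin.lastCases ?_ (fun i => ?_) j
        · simpa [sn] using h1
        · simpa [sn] using h3 i
      · refine Fin.lastCases ?_ (fun i => ?_) j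
        · simpa [sn] using h2
        · simpa [sn] using (h4 i).trans h2
      · refine Fin.lastCases ?_ (fun i => ?_) j
        · simp [sn]
        · simpa [sn] using h4 i
  have hin : ∀ v : ℝ, ∫ u : Fin k → ℝ,
      (E.symm ⁻¹' A k s (Fin.last k)).indicator (fun p => g (E.symm p)) (v, u) =
      (Set.Icc (0 : ℝ) s).indicator (fun v => ∫ u in Set.Icc (0 : Fin k → ℝ) (fun _ => v),
        g (sn u v)) v := by
    intro v
    by_cases hv : v ∈ Set.Icc (0 : ℝ) s
    · rw [Set.indicator_of_mem hv, ← integral_indicator measurableSet_Icc]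
      refine integral_congr_ae (Eventually.of_forall fun u => ?_)
      dsimp only
      by_cases hu : u ∈ Set.Icc (0 : Fin k → ℝ) (fun _ => v)
      · rw [Set.indicator_of_mem hu, Set.indicator_of_mem ((hmem v u).2 ⟨hv, hu⟩), happ]
      · rw [Set.indicator_of_notMem hu, Set.indicator_of_notMem fun h => hu ((hmem v u).1 h).2]
    · rw [Set.indicator_of_notMem hv]
      rw [← integral_zero (Fin k → ℝ) ℝ]
      refine integral_congr_ae (Eventually.of_forall fun u => ?_)
      dsimp only
      rw [Set.indicator_of_notMem fun h => hv ((hmem v u).1 h).1]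
  simp only [hin]
  rw [integral_indicator measurableSet_Icc, integral_Icc_eq_integral_Ioc,
    intervalIntegral.integral_of_le hs.le]
  exact setIntegral_congr_fun measurableSet_Ioc fun v hv => scal k g hv.1

theorem cube_eq (k : ℕ) (g : (Fin (k + 1) → ℝ) → ℝ) (hg : Continuous g)
    (hs : ∀ (e : Equiv.Perm (Fin (k + 1))) (y : Fin (k + 1) → ℝ), g (fun i => y (e i)) = g y)
    {s : ℝ} (hs0 : 0 < s) : ∫ u in Set.Icc (0 : Fin (k + 1) → ℝ) (fun _ => s), g u =
      ((k : ℝ) + 1) * ∫ v in (0 : ℝ)..s, Q k g v := by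
  rw [← A_union k s, integral_iUnion_ae (fun i => (A_closed k s i).measurableSet.nullMeasurableSet)
    (A_ae k s), tsum_fintype]
  · rw [Finset.sum_congr rfl fun i _ => A_swap k g hs s i, Finset.sum_const, Finset.card_univ,
      Fintype.card_fin, nsmul_eq_mul, A_last k g hg hs0]
    push_cast
    ring
  · rw [A_union]
    exact hg.continuousOn.integrableOn_compact isCompact_Icc

theorem t_DER : S_DER := by
  intro k g hg hs s hs0
  have hQ := Q_cont k g hg
  rw [scal k g hs0]
  have h1 : HasDerivAt (fun s => ∫ v in (0 : ℝ)..s, Q k g v) (Q k g s) s :=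
    intervalIntegral.integral_hasDerivAt_right (hQ.intervalIntegrable _ _)
      hQ.aestronglyMeasurable.stronglyMeasurableAtFilter hQ.continuousAt
  have h2 := h1.const_mul ((k : ℝ) + 1)
  refine h2.congr_of_eventuallyEq ?_
  filter_upwards [eventually_gt_nhds hs0] with v hv
  exact cube_eq k g hg hs hv

end Pool.Agent.H289.GU.DER
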